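import Pool.Agent.helper56.CT.SpecB

/-!
# Module cd:A3c
-/

namespace CT
open Finset

/-- extension by zero -/
theorem A3c_sum {E : Type} [Fintype E] [DecidableEq E] (T : Finset E) (c : E → ZMod 2)
    (y : T → ZMod 2) :
    ∑ e, c e * (if h : e ∈ T then y ⟨e, h⟩ else 0) = ∑ e : T, c e * y e := by
  rw [← Finset.sum_subset (Finset.subset_univ T)
    (fun e _ he => by rw [dif_neg he, mul_zero])]
  rw [← Finset.sum_coe_sort T]
  exact Finset.sum_congr rfl fun e _ => by rw [dif_pos e.2]

/-- the general form -/
theorem A3c_gen {E N : Type} [Fintype E] [Fintype N] [DecidableEq E] [DecidableEq N]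
    (inc : E → N → ZMod 2) (T : Finset E) (R : Finset N)
    (h1 : ∀ y : E → ZMod 2, (∀ a, a ∉ T → y a = 0) →
      (∀ n, n ∉ R → ∑ a, inc a n * y a = 0) → y = 0)
    (h2 : ∀ φ : N → ZMod 2, (∀ a ∈ T, ∑ n, inc a n * φ n = 0) → (∀ m ∈ R, φ m = 0) → φ = 0) :
    T.card + R.card = Fintype.card N := by
  have hR : (Rᶜ).card + R.card = Fintype.card N := by
    rw [Finset.card_compl]
    have := Finset.card_le_univ R
    omega
  have e1 : T.card ≤ (Rᶜ).card := by
    let f : (T → ZMod 2) →ₗ[ZMod 2] ((Rᶜ : Finset N) → ZMod 2) :=
      Matrix.mulVecLin (Matrix.of fun (n : (Rᶜ : Finset N)) (e : T) => inc e n)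
    have hf : Function.Injective f := by
      rw [injective_iff_map_eq_zero]
      intro y hy
      have h := h1 (fun e => if h : e ∈ T then y ⟨e, h⟩ else 0)
        (fun e he => dif_neg he) (fun n hn => by
          rw [A3c_sum]
          have h3 := congrFun hy ⟨n, Finset.mem_compl.mpr hn⟩
          exact h3)
      funext e
      have h4 := congrFun h e.1
      simpa using h4
    have := LinearMap.finrank_le_finrank_of_injective hf
    simpa [Finset.card_compl] using this
  have e2 : (Rᶜ).card ≤ T.card := by
    let f : ((Rᶜ : Finset N) → ZMod 2) →ₗ[ZMod 2] (T → ZMod 2) :=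
      Matrix.mulVecLin (Matrix.of fun (e : T) (n : (Rᶜ : Finset N)) => inc e n)
    have hf : Function.Injective f := by
      rw [injective_iff_map_eq_zero]
      intro y hy
      have h := h2 (fun n => if h : n ∈ (Rᶜ : Finset N) then y ⟨n, h⟩ else 0)
        (fun e he => by
          rw [A3c_sum]
          have h3 := congrFun hy ⟨e, he⟩
          exact h3)
        (fun n hn => dif_neg (by simpa using hn))
      funext n
      have h4 := congrFun h n.1
      simp only [n.2, dite_true] at h4
      exact h4
    have := LinearMap.finrank_le_finrank_of_injective hf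
    simpa [Finset.card_compl] using this
  omega

/-- A3c -/
theorem A3c : A3c_stmt := by
  intro E N _ _ _ _ inc T a b
  constructor
  · rintro ⟨h1, h2⟩
    have h := A3c_gen inc T {a} (fun y hy hk => h1 y hy (fun n hn => hk n (by
      intro hm
      rw [Finset.mem_singleton] at hm
      unfold g1 at hn
      rw [if_pos hm] at hn
      exact Option.some_ne_none _ hn)))
      (fun φ hφ hR => h2 φ hφ (fun n m hn => by
        unfold g1 at hn
        by_cases hna : n = a
        · rw [if_pos hna] at hn
          have := Option.some.inj hn
          rw [← this]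
          exact hR a (Finset.mem_singleton_self a)
        · rw [if_neg hna] at hn
          exact absurd hn.symm (Option.some_ne_none _)))
    simpa using h
  · intro hab
    rintro ⟨h1, h2⟩
    have h := A3c_gen inc T {a, b} (fun y hy hk => h1 y hy (fun n hn => hk n (by
      intro hm
      rw [Finset.mem_insert, Finset.mem_singleton] at hm
      unfold g2 at hn
      by_cases hna : n = a
      · rw [if_pos hna] at hn
        exact Option.some_ne_none _ hn
      · rw [if_neg hna, if_pos (hm.resolve_left hna)] at hn
        exact Option.some_ne_none _ hn)))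
      (fun φ hφ hR => h2 φ hφ (fun n m hn => by
        unfold g2 at hn
        by_cases hna : n = a
        · rw [if_pos hna] at hn
          have := Option.some.inj hn
          rw [← this]
          exact hR a (Finset.mem_insert_self a _)
        · rw [if_neg hna] at hn
          by_cases hnb : n = b
          · rw [if_pos hnb] at hn
            have := Option.some.inj hn
            rw [← this]
            exact hR b (by simp)
          · rw [if_neg hnb] at hn
            exact absurd hn.symm (Option.some_ne_none _)))
    rw [Finset.card_pair hab] at h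
    exact h

end CT
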